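import Mathlib
import Pool.Agent.H.MP_677f70_an.C

open InnerProductSpace

namespace Pool.Agent.Results.MP_677f70_an.Yes

def HasMajorant {E : Type} [NormedAddCommGroup E] [InnerProductSpace ℝ E] [FiniteDimensional ℝ E]
    (D : Set E) (u : E → ℝ) : Prop :=
  ∃ h : E → ℝ, HarmonicOnNhd h D ∧ ∀ x ∈ D, u x ≤ h x

theorem result (n : ℕ) : ∃ D : Set (EuclideanSpace ℝ (Fin (n + 2))), IsOpen D ∧ IsConnected D ∧
    HasMajorant D (fun x => ‖x‖) ∧
    ¬ HasMajorant D (fun x => |x 0| * max (Real.log |x 0|) 0) := by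
  open Pool.Agent.H.MP_677f70_an in
  refine ⟨connectedComponentIn (Gs n) (x0 n), Gopen.connectedComponentIn,
    isConnected_connectedComponentIn_iff.2 x0p.1, ?_, fun h => h.elim fun _ h => nomaj h.1 h.2⟩
  obtain ⟨h, h1, h2⟩ := Pool.Agent.H.MP_677f70_an.exmaj (n := n)
  exact ⟨h, h1.mono (connectedComponentIn_subset _ _),
    fun x hx => h2 x (connectedComponentIn_subset _ _ hx)⟩

end Pool.Agent.Results.MP_677f70_an.Yes
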